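import Pool.Agent.H.MP_e34f63_pr.A

set_option autoImplicit false

namespace Pool.Agent.Results.MP_e34f63_pr.Both

open Pool.Agent.H.MP_e34f63_pr

theorem result :
    (∃ ζ ξ : Fin 1 → PMF (List (Fin 1)), Cond 1 ζ ξ ∧ ζ 0 [0] = 0 ∧ ξ 0 [0] ≠ 0) ∧
    ∀ (K : ℕ) (Γ : Fin K → ℕ) (ζ ξ : Fin K → PMF (List (Fin K))),
      (∀ i, P ζ {ω | {p : List ℕ × Fin K | T ω i p.1 p.2}.Finite} ≠ 0) →
      (∀ i j, Relation.ReflTransGen (fun a b => ∃ x, ζ a x ≠ 0 ∧ b ∈ x) i j) →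
      (∃ i x, ζ i x ≠ 0 ∧ 2 ≤ x.length) → Cond Γ ζ ξ → ∀ i x, ζ i x = 0 ↔ ξ i x = 0 :=
  ⟨cex, fun _ _ _ _ h1 h2 h3 h => main h h1 h2 h3⟩

end Pool.Agent.Results.MP_e34f63_pr.Both
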